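import Pool.Agent.Work.MP_64ea0f_cs.InterfaceG1

set_option autoImplicit false

/-! # FAR1: far vertices -/

namespace Pool.CS

theorem far1_thm (hBAS : Stmt_BAS) (hSGN : Stmt_SGN) (hNRC : Stmt_NRC) (hNRK : Stmt_NRK) : Stmt_FAR1 := by
  intro D K hK
  obtain ⟨-, hlin, -⟩ := hBAS D
  obtain ⟨hsgn, -⟩ := hSGN D
  have hBneg : ∀ v w, D.B (-v) w = -D.B v w := by
    intro v w
    have h := hlin (-1) 0 v 0 w
    simpa using h
  obtain ⟨C0, _, hN⟩ := hNRC D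
  obtain ⟨C', hC', hNK⟩ := hNRK D K hK C0
  refine ⟨C', hC', ?_⟩
  intro x hx δ hfar
  obtain ⟨hAf, hnot⟩ := hfar
  have hnear : ¬ D.Near ∅ C0 x δ := fun h => hnot (hNK x hx δ hAf h)
  obtain ⟨h1, h2⟩ := hN x hx.1 δ hAf
  have hmin : ∀ φ, D.Mn x φ → D.B φ δ = 0 := by
    intro φ hφ
    by_contra hc
    exact hnear (h2 φ hφ hc)
  refine ⟨?_, ?_, ?_⟩
  · intro μ hμ hlt
    rcases hx.1.tot μ hμ with h | h
    · exact h
    · exact absurd (h1 (-μ) h (by rw [hBneg]; linarith)) hnear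
  · intro φ hφ hφK
    rcases hsgn φ hφ with h | h
    · exact hmin φ (hx.2 φ h hφK)
    · have hK' : D.In K (-φ) := by
        intro s hs
        rw [Pi.neg_apply, hφK s hs, neg_zero]
      have h3 := hmin (-φ) (hx.2 (-φ) h hK')
      rw [hBneg] at h3
      linarith
  · intro φ hφ
    by_cases hF : φ ∈ D.Fd δ
    · exact Or.inl hF
    · exact Or.inr ⟨hx.1.sub hφ.1, hmin φ hφ, hF⟩

end Pool.CS
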