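import Pool.Agent.Work.MP_64ea0f_cs.InterfaceG3

set_option autoImplicit false

/-! # SHX: shifted vertices -/

namespace Pool.CS
namespace ShxAux

variable (D : Rd)

theorem B_symm (v w : D.V) : D.B v w = D.B w v := by
  unfold Rd.B bform
  rw [Finset.sum_comm]
  refine Finset.sum_congr rfl fun s _ => Finset.sum_congr rfl fun t _ => ?_
  rw [D.symm t s]
  ring

theorem B_add_smul_left (v w u : D.V) (t : ℝ) : D.B (v + t • w) u = D.B v u + t * D.B w u := by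
  unfold Rd.B bform
  rw [Finset.mul_sum, ← Finset.sum_add_distrib]
  refine Finset.sum_congr rfl fun s _ => ?_
  rw [Finset.mul_sum, ← Finset.sum_add_distrib]
  refine Finset.sum_congr rfl fun r _ => ?_
  simp only [Pi.add_apply, Pi.smul_apply, smul_eq_mul]
  ring

theorem B_add_smul_right (v w u : D.V) (t : ℝ) : D.B u (v + t • w) = D.B u v + t * D.B u w := by
  rw [B_symm, B_add_smul_left, B_symm D v u, B_symm D w u]

theorem B_neg_left (v u : D.V) : D.B (-v) u = -D.B v u := by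
  have h := B_add_smul_left D 0 v u (-1)
  have h0 : D.B 0 u = 0 := by
    unfold Rd.B bform
    simp
  rw [h0] at h
  simpa using h

theorem B_neg_right (v u : D.V) : D.B u (-v) = -D.B u v := by
  rw [B_symm, B_neg_left, B_symm]

theorem rt_act {φ : D.V} (hφ : φ ∈ D.Rt) (w : D.W) : D.ρ w φ ∈ D.Rt := by
  obtain ⟨g, s, rfl⟩ := hφ
  refine ⟨w * g, s, ?_⟩
  rw [map_mul]
  rfl

theorem on_or {φ : D.V} (hφ : φ ∈ D.Rt) (w : D.W) : D.On w φ ∨ D.On w (-φ) := by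
  obtain ⟨g, s, rfl⟩ := hφ
  have h1 : D.ρ w⁻¹ (D.ρ g (D.e s)) = D.ρ (w⁻¹ * g) (D.e s) := by
    rw [map_mul]; rfl
  rcases D.sign (w⁻¹ * g) s with h | h
  · left
    refine ⟨rt_act D (rt_act D ⟨1, s, by simp⟩ g) w⁻¹, ?_⟩
    intro t
    rw [h1]
    exact h t
  · by_cases h0 : D.ρ w⁻¹ (-(D.ρ g (D.e s))) ∈ D.Rt
    · right
      refine ⟨h0, ?_⟩
      intro t
      rw [map_neg, h1, Pi.neg_apply]
      have := h t
      unfold Rd.e
      linarith
    · exfalso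
      apply h0
      apply rt_act D
      -- -(ρ g e_s) = ρ (g σ_s) e_s
      refine ⟨g * D.σ s, s, ?_⟩
      have h2 : D.ρ (D.σ s) (D.e s) = -D.e s := by
        have h3 := D.refl s (D.e s)
        rw [h3]
        have h4 : bform D.k (D.e s) (Pi.single s 1) = 1 := by
          unfold bform Rd.e
          simp [Pi.single_apply, D.diag]
        rw [h4]
        unfold Rd.e
        rw [mul_one, two_smul]
        abel
      rw [map_mul]
      change -(D.ρ g (D.e s)) = D.ρ g (D.ρ (D.σ s) (D.e s))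
      rw [h2, map_neg]

theorem exists_on {φ : D.V} (hφ : φ ∈ D.Rt) : ∃ w, D.On w φ := by
  obtain ⟨g, s, rfl⟩ := hφ
  refine ⟨g, ?_⟩
  have h1 : D.ρ g⁻¹ (D.ρ g (D.e s)) = D.e s := by
    have : D.ρ g⁻¹ (D.ρ g (D.e s)) = D.ρ (g⁻¹ * g) (D.e s) := by
      rw [map_mul]; rfl
    rw [this]; simp
  unfold Rd.On
  rw [h1]
  refine ⟨⟨1, s, by simp⟩, ?_⟩
  intro t
  unfold Rd.e
  by_cases h : t = s
  · subst h; simp
  · simp [h]

end ShxAux

open ShxAux

theorem shx_thm (hTHR : Stmt_THR) (hORT : Stmt_ORT) (hORD : Stmt_ORD) (hNST : Stmt_NST) (hBTH : Stmt_BTH)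
    (hYJ1 : Stmt_YJ1) (hVX1 : Stmt_VX1) : Stmt_SHX := by
  classical
  intro D K hK δ hδ hCmp x hx hBig ν hν
  obtain ⟨hVx, hMnK⟩ := hx
  -- basic facts
  have hVX := hVX1 D
  obtain ⟨hVPs, -, -, -, -, -, -, -, hneg, hup, -⟩ := hVX
  have hYJ := hYJ1 D K hK
  have hT := hTHR D δ hδ
  obtain ⟨hO1, -, -, -⟩ := hORT D
  obtain ⟨hFdB, hFpB, hdd⟩ := hO1 δ hδ
  -- threshold facts
  have hcpos : ∀ φ ∈ D.Fd δ, 0 < D.cst δ φ := fun φ h => (hT φ h).1
  have hprog : ∀ φ ∈ D.Fd δ, ∀ t : ℝ, φ + t • δ ∈ D.Rt ↔ ∃ i : ℤ, t = i * D.cst δ φ :=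
    fun φ h => (hT φ h).2.1
  have hcstd : ∀ φ ∈ D.Fd δ, ∀ t : ℝ, φ + t • δ ∈ D.Rt → D.cst δ (φ + t • δ) = D.cst δ φ ∧ φ + t • δ ∈ D.Fd δ :=
    fun φ h => (hT φ h).2.2.1
  have hFneg : ∀ φ ∈ D.Fd δ, -φ ∈ D.Fd δ := fun φ h => (hT φ h).2.2.2.1
  have hcneg : ∀ φ ∈ D.Fd δ, D.cst δ (-φ) = D.cst δ φ := fun φ h => (hT φ h).2.2.2.2.1
  have hSub : ∀ φ ∈ D.Fd δ, ∀ t : ℝ, 0 ≤ t → φ + t • δ ∈ D.Rt → D.Sub φ (φ + t • δ) :=
    fun φ h => (hT φ h).2.2.2.2.2.1
  have hthr : ∀ φ ∈ D.Fd δ, ∀ x, D.Vx x → ∃ j : ℤ, ∀ i : ℤ, φ + ((i : ℝ) * D.cst δ φ) • δ ∈ x ↔ j ≤ i :=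
    fun φ h => (hT φ h).2.2.2.2.2.2.1
  have hpair : ∀ φ ∈ D.Fd δ, ∀ ψ ∈ D.Fd δ, |D.B φ ψ| < 1 ∨ ∃ t : ℝ, ψ = φ + t • δ ∨ ψ = -φ + t • δ :=
    fun φ h => (hT φ h).2.2.2.2.2.2.2.1
  have hdirs : ∀ φ ∈ D.Fd δ, ∃ A, D.Dirs δ A := fun φ h => (hT φ h).2.2.2.2.2.2.2.2.1
  have hδ0 : ∀ φ ∈ D.Fd δ, δ ≠ 0 := by
    intro φ hφ h0
    obtain ⟨i, hi⟩ := (hprog φ hφ (D.cst δ φ / 2)).1 (by rw [h0, smul_zero, add_zero]; exact hφ.1)
    have hc := hcpos φ hφ
    have h2 : (i : ℝ) = 1 / 2 := by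
      have : (1 / 2 : ℝ) * D.cst δ φ = i * D.cst δ φ := by rw [← hi]; ring
      exact (mul_right_cancel₀ (ne_of_gt hc) this).symm
    have h3 : (2 * i : ℤ) = 1 := by
      have : ((2 * i : ℤ) : ℝ) = 1 := by push_cast; rw [h2]; norm_num
      exact_mod_cast this
    omega
  have hrt_neg : ∀ φ ∈ D.Rt, φ ∉ D.Fd δ → -φ ∉ D.Fd δ := by
    intro φ _ h h'
    apply h
    have := hFneg _ h'
    rwa [neg_neg] at this
  -- shift of a root of Fd
  have hshift : ∀ φ ∈ D.Fd δ, ∀ i : ℤ, φ + ((i : ℝ) * D.cst δ φ) • δ ∈ D.Fd δ ∧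
      D.cst δ (φ + ((i : ℝ) * D.cst δ φ) • δ) = D.cst δ φ ∧ ν (φ + ((i : ℝ) * D.cst δ φ) • δ) = ν φ := by
    intro φ hφ i
    have h1 : φ + ((i : ℝ) * D.cst δ φ) • δ ∈ D.Rt := (hprog φ hφ _).2 ⟨i, rfl⟩
    have h2 := hcstd φ hφ _ h1
    exact ⟨h2.2, h2.1, hν.dir φ hφ _ h2.2⟩
  -- description of the shifted set
  set y := D.shs δ ν x with hy
  have hyF : ∀ φ ∈ D.Fd δ, (φ ∈ y ↔ φ - ((ν φ : ℝ) * D.cst δ φ) • δ ∈ x) := by
    intro φ hφ
    constructor
    · rintro (⟨_, h⟩ | ⟨_, h⟩)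
      · exact absurd hφ h
      · exact h
    · intro h
      exact Or.inr ⟨hφ, h⟩
  have hyN : ∀ φ, φ ∉ D.Fd δ → (φ ∈ y ↔ φ ∈ x) := by
    intro φ hφ
    constructor
    · rintro (⟨h, _⟩ | ⟨h, _⟩)
      · exact h
      · exact absurd h hφ
    · intro h
      exact Or.inl ⟨h, hφ⟩
  have hback : ∀ φ ∈ D.Fd δ, φ - ((ν φ : ℝ) * D.cst δ φ) • δ ∈ D.Fd δ := by
    intro φ hφ
    have h := (hshift φ hφ (-ν φ)).1
    have h2 : φ + (((-ν φ : ℤ) : ℝ) * D.cst δ φ) • δ = φ - ((ν φ : ℝ) * D.cst δ φ) • δ := by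
      push_cast
      rw [sub_eq_add_neg, ← neg_smul, neg_mul]
    rwa [h2] at h
  have hbigx : ∀ ψ ∈ x, D.B ψ δ ≤ 0 := by
    intro ψ hψ
    by_contra hc
    push Not at hc
    have hr : ψ ∈ D.Rt := hVx.sub hψ
    have hr' : -ψ ∈ D.Rt := by
      obtain ⟨w, s, hw⟩ := hr
      refine ⟨w * D.σ s, s, ?_⟩
      have h2 : D.ρ (D.σ s) (D.e s) = -D.e s := by
        have h3 := D.refl s (D.e s)
        rw [h3]
        have h4 : bform D.k (D.e s) (Pi.single s 1) = 1 := by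
          unfold bform Rd.e
          simp [Pi.single_apply, D.diag]
        rw [h4]
        unfold Rd.e
        rw [mul_one, two_smul]
        abel
      rw [map_mul]
      change -ψ = D.ρ w (D.ρ (D.σ s) (D.e s))
      rw [h2, map_neg, ← hw]
    have h1 : -ψ ∈ x := hBig (-ψ) hr' (by rw [B_neg_left]; linarith)
    exact hneg x hVx ψ hψ h1
  have hsub : y ⊆ D.Rt := by
    rintro φ (⟨h, _⟩ | ⟨h, _⟩)
    · exact hVx.sub h
    · exact h.1
  -- compatibility of a root of Fd and another one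
  have hmix : ∀ φ ∈ D.Fd δ, ∀ ψ ∈ x, ψ ∉ D.Fd δ → ∃ w, D.On w φ ∧ D.On w ψ := by
    intro φ hφ ψ hψ hψF
    have hψR : ψ ∈ D.Rt := hVx.sub hψ
    rcases lt_or_eq_of_le (hbigx ψ hψ) with hlt | heq
    · by_contra hcon
      push Not at hcon
      have hφn := hFneg φ hφ
      have hS : D.Sub ψ (-φ) := by
        intro w hw
        rcases on_or D hφ.1 w with h | h
        · exact absurd hw (hcon w h)
        · exact h
      have hc := hcpos (-φ) hφn
      have hall : ∀ i : ℕ, 1 ≤ D.B ψ (-φ) + ((i : ℝ) * D.cst δ (-φ)) * D.B ψ δ := by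
        intro i
        have hi := hshift (-φ) hφn (i : ℤ)
        have hS2 : D.Sub (-φ) (-φ + (((i : ℤ) : ℝ) * D.cst δ (-φ)) • δ) :=
          hSub (-φ) hφn _ (by push_cast; positivity) hi.1.1
        have hS3 : D.Sub ψ (-φ + (((i : ℤ) : ℝ) * D.cst δ (-φ)) • δ) := fun w hw => hS2 w (hS w hw)
        have hne : ψ ≠ -φ + (((i : ℤ) : ℝ) * D.cst δ (-φ)) • δ := by
          intro h
          apply hψF
          rw [h]
          exact hi.1
        have h1 := (hNST D ψ hψR _ hi.1.1).1 hS3 hne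
        rw [B_add_smul_right] at h1
        simpa using h1
      have hpos : 0 < D.cst δ (-φ) * (-D.B ψ δ) := mul_pos hc (by linarith)
      obtain ⟨n, hn⟩ := exists_nat_gt (D.B ψ (-φ) / (D.cst δ (-φ) * (-D.B ψ δ)))
      rw [div_lt_iff₀ hpos] at hn
      have h2 := hall n
      nlinarith
    · have hFp : ψ ∈ D.Fp δ := ⟨hψR, heq, hψF⟩
      have hB : D.B ψ φ = 0 := hFpB ψ hFp φ hφ
      obtain ⟨w, hw1, hw2⟩ := (hNST D ψ hψR φ hφ.1).2.2.2.1 (by rw [hB]; simp)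
      exact ⟨w, hw2, hw1⟩
  have hcmpF : ∀ φ ∈ D.Fd δ, φ ∈ y → ∀ ψ ∈ D.Fd δ, ψ ∈ y → ∃ w, D.On w φ ∧ D.On w ψ := by
    intro φ hφ hφy ψ hψ hψy
    rcases hpair φ hφ ψ hψ with hlt | ⟨t, ht | ht⟩
    · exact (hNST D φ hφ.1 ψ hψ.1).2.2.2.1 hlt
    · rcases le_total 0 t with h0 | h0
      · have hS : D.Sub φ ψ := by
          rw [ht]
          exact hSub φ hφ t h0 (by rw [← ht]; exact hψ.1)
        obtain ⟨w, hw⟩ := exists_on D hφ.1
        exact ⟨w, hw, hS w hw⟩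
      · have hφψ : φ = ψ + (-t) • δ := by rw [ht, neg_smul]; abel
        have hS : D.Sub ψ φ := by
          have h3 := hSub ψ hψ (-t) (by linarith) (by rw [← hφψ]; exact hφ.1)
          rwa [← hφψ] at h3
        obtain ⟨w, hw⟩ := exists_on D hψ.1
        exact ⟨w, hS w hw, hw⟩
    · -- opposite directions
      have hφn := hFneg φ hφ
      have hνψ : ν ψ = -ν φ := by
        rw [ht, hν.dir (-φ) hφn t (by rw [← ht]; exact hψ), hν.odd φ hφ]
      have hcψ : D.cst δ ψ = D.cst δ φ := by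
        rw [ht, (hcstd (-φ) hφn t (by rw [← ht]; exact hψ.1)).1, hcneg φ hφ]
      have hφx := (hyF φ hφ).1 hφy
      have hψx := (hyF ψ hψ).1 hψy
      have hφF := hback φ hφ
      have hψF := hback ψ hψ
      set φ' := φ - ((ν φ : ℝ) * D.cst δ φ) • δ with hφ'
      set ψ' := ψ - ((ν ψ : ℝ) * D.cst δ ψ) • δ with hψ'
      have heq : ψ' = -φ' + t • δ := by
        rw [hψ', hφ', hνψ, hcψ, ht]
        push_cast
        module
      have htpos : 0 < t := by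
        by_contra hcon
        push Not at hcon
        have h3 : -φ' = ψ' + (-t) • δ := by rw [heq, neg_smul]; abel
        have h4 := hSub ψ' hψF (-t) (by linarith) (by rw [← h3]; exact (hFneg φ' hφF).1)
        rw [← h3] at h4
        have h5 : -φ' ∈ x := hup x hVx ψ' hψx (-φ') (hFneg φ' hφF).1 h4
        exact hneg x hVx φ' hφx h5
      by_contra hcon
      push Not at hcon
      have hnegψ : -ψ = φ + (-t) • δ := by rw [ht, neg_smul]; abel
      have hnF : -ψ ∈ D.Fd δ := hFneg ψ hψ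
      have hS1 : D.Sub φ (-ψ) := by
        intro w hw
        rcases on_or D hψ.1 w with h | h
        · exact absurd h (hcon w hw)
        · exact h
      have hS2 : D.Sub (-ψ) φ := by
        have h6 : φ = -ψ + t • δ := by rw [hnegψ, neg_smul]; abel
        have h7 := hSub (-ψ) hnF t htpos.le (by rw [← h6]; exact hφ.1)
        rwa [← h6] at h7
      have h8 := (hNST D φ hφ.1 (-ψ) hnF.1).2.2.1 hS1 hS2
      rw [hnegψ] at h8
      have h9 : (-t) • δ = 0 := by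
        have : φ + 0 = φ + (-t) • δ := by rw [add_zero]; exact h8
        exact (add_left_cancel this).symm
      rcases smul_eq_zero.1 h9 with h | h
      · linarith
      · exact hδ0 φ hφ h
  have hVy : D.Vx y := by
    refine ⟨hsub, ?_, ?_, ?_⟩
    · intro φ hφ
      by_cases hF : φ ∈ D.Fd δ
      · have hFn := hFneg φ hF
        rw [hyF φ hF, hyF (-φ) hFn, hν.odd φ hF, hcneg φ hF]
        have h1 : -φ - (((-ν φ : ℤ) : ℝ) * D.cst δ φ) • δ = -(φ - ((ν φ : ℝ) * D.cst δ φ) • δ) := by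
          push_cast
          module
        rw [h1]
        exact hVx.tot _ (hback φ hF).1
      · rw [hyN φ hF, hyN (-φ) (hrt_neg φ hφ hF)]
        exact hVx.tot φ hφ
    · intro φ hφ ψ hψ
      by_cases hF : φ ∈ D.Fd δ
      · by_cases hG : ψ ∈ D.Fd δ
        · exact hcmpF φ hF hφ ψ hG hψ
        · exact hmix φ hF ψ ((hyN ψ hG).1 hψ) hG
      · by_cases hG : ψ ∈ D.Fd δ
        · obtain ⟨w, h1, h2⟩ := hmix ψ hG φ ((hyN φ hF).1 hφ) hF
          exact ⟨w, h2, h1⟩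
        · exact hVx.cmp φ ((hyN φ hF).1 hφ) ψ ((hyN ψ hG).1 hψ)
    · by_cases hne : ∃ φ, φ ∈ D.Fd δ
      · obtain ⟨φ0, hφ0⟩ := hne
        obtain ⟨A, hA1, hA2⟩ := hdirs φ0 hφ0
        have hj : ∀ α : D.V, ∃ j : ℤ × ℤ, α ∈ D.Fd δ →
            (∀ i : ℤ, α + ((i : ℝ) * D.cst δ α) • δ ∈ x ↔ j.1 ≤ i) ∧
            (∀ i : ℤ, α + ((i : ℝ) * D.cst δ α) • δ ∈ D.Ps ↔ j.2 ≤ i) := by
          intro α
          by_cases hα : α ∈ D.Fd δ
          · obtain ⟨j1, hj1⟩ := hthr α hα x hVx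
            obtain ⟨j2, hj2⟩ := hthr α hα D.Ps hVPs
            exact ⟨(j1, j2), fun _ => ⟨hj1, hj2⟩⟩
          · exact ⟨(0, 0), fun h => absurd h hα⟩
        choose j hj using hj
        have hfin : (⋃ α ∈ A, (fun i : ℤ => α + ((i : ℝ) * D.cst δ α) • δ) '' Set.Icc ((j α).1 + ν α) (j α).2).Finite := by
          apply Set.Finite.biUnion (Finset.finite_toSet A)
          intro α _
          exact (Set.finite_Icc _ _).image _
        refine (hVx.fin.union hfin).subset ?_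
        rintro φ ⟨hφy, hφP⟩
        by_cases hF : φ ∈ D.Fd δ
        · right
          obtain ⟨α, ⟨hαA, t, ht⟩, -⟩ := hA2 φ hF
          have hαF := hA1 α hαA
          obtain ⟨i, hi⟩ := (hprog α hαF t).1 (by rw [← ht]; exact hF.1)
          have hφα : φ = α + ((i : ℝ) * D.cst δ α) • δ := by rw [ht, hi]
          have hs := hshift α hαF i
          rw [← hφα] at hs
          simp only [Set.mem_iUnion]
          refine ⟨α, hαA, i, ⟨?_, ?_⟩, hφα.symm⟩
          · have h1 := (hyF φ hF).1 hφy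
            rw [hs.2.1, hs.2.2] at h1
            have h2 : φ - ((ν α : ℝ) * D.cst δ α) • δ = α + (((i - ν α : ℤ) : ℝ) * D.cst δ α) • δ := by
              rw [hφα]
              push_cast
              module
            rw [h2] at h1
            have h3 := ((hj α hαF).1 (i - ν α)).1 h1
            linarith
          · by_contra hcon
            push Not at hcon
            apply hφP
            rw [hφα]
            exact ((hj α hαF).2 i).2 hcon.le
        · left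
          exact ⟨(hyN φ hF).1 hφy, hφP⟩
      · push Not at hne
        refine hVx.fin.subset ?_
        rintro φ ⟨hφy, hφP⟩
        exact ⟨(hyN φ (hne φ)).1 hφy, hφP⟩
  have hBigy : D.Big y δ := by
    intro μ hμ hlt
    have hμx := hBig μ hμ hlt
    have hμF : μ ∉ D.Fd δ := by
      intro h
      rw [hFdB μ h] at hlt
      exact lt_irrefl _ hlt
    exact (hyN μ hμF).2 hμx
  -- minimal roots orthogonal to Fd
  have hMnP : ∀ φ, D.Mn x φ → φ ∈ D.Fp δ → D.Mn y φ := by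
    intro φ hφ hφP
    refine ⟨(hyN φ hφP.2.2).2 hφ.1, ?_⟩
    intro χ hχ hS
    by_cases hF : χ ∈ D.Fd δ
    · exfalso
      have hne : χ ≠ φ := by
        intro h
        rw [h] at hF
        exact hφP.2.2 hF
      have h1 := (hNST D χ hF.1 φ hφP.1).1 hS hne
      rw [B_symm, hFpB φ hφP χ hF] at h1
      linarith
    · exact hφ.2 χ ((hyN χ hF).1 hχ) hS
  -- thresholds
  have hMnx : ∀ φ ∈ D.Fd δ, D.Mn x φ → φ - (D.cst δ φ) • δ ∉ x := by
    intro φ hφ hm hmem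
    have h1 : φ + (((-1 : ℤ) : ℝ) * D.cst δ φ) • δ = φ - (D.cst δ φ) • δ := by
      push_cast
      module
    have h2 := (hshift φ hφ (-1)).1
    rw [h1] at h2
    have h3 : φ = (φ - (D.cst δ φ) • δ) + (D.cst δ φ) • δ := by abel
    have h4 := hSub _ h2 (D.cst δ φ) (hcpos φ hφ).le (by rw [← h3]; exact hφ.1)
    rw [← h3] at h4
    have h5 := hm.2 _ hmem h4
    have h6 : (D.cst δ φ) • δ = 0 := by
      have : φ - (D.cst δ φ) • δ = φ - 0 := by rw [sub_zero]; exact h5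
      exact sub_right_injective this
    rcases smul_eq_zero.1 h6 with h | h
    · exact absurd h (ne_of_gt (hcpos φ hφ))
    · exact hδ0 φ hφ h
  have hMnF : ∀ φ, D.Mn x φ → φ ∈ D.Fd δ → D.Mn y (φ + ((ν φ : ℝ) * D.cst δ φ) • δ) := by
    intro φ hm hφ
    obtain ⟨hs1, hs2, hs3⟩ := hshift φ hφ (ν φ)
    set φ2 := φ + ((ν φ : ℝ) * D.cst δ φ) • δ with hφ2
    have hmem : φ2 ∈ y := by
      rw [hyF φ2 hs1, hs2, hs3, hφ2, add_sub_cancel_right]
      exact hm.1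
    obtain ⟨ht1, ht2, ht3⟩ := hshift φ2 hs1 (-1)
    have hE : φ2 + (((-1 : ℤ) : ℝ) * D.cst δ φ2) • δ = φ2 - (D.cst δ φ2) • δ := by
      push_cast
      module
    rw [hE] at ht1 ht2 ht3
    refine hBTH D y hVy δ hδ hBigy φ2 hs1 hmem ?_
    rw [hyF _ ht1, ht2, ht3, hs2, hs3]
    have h7 : φ2 - D.cst δ φ • δ - ((ν φ : ℝ) * D.cst δ φ) • δ = φ - D.cst δ φ • δ := by
      rw [hφ2]
      abel
    rw [h7]
    exact hMnx φ hφ hm
  have hYy : D.YJ K y := by
    refine ⟨hVy, ?_⟩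
    intro φ hφP hφK
    have hm := hMnK φ hφP hφK
    have hB := hCmp φ hφP.1 hφK
    by_cases hF : φ ∈ D.Fd δ
    · have h1 := hMnF φ hm hF
      rw [hν.zro φ hF hφK] at h1
      simpa using h1
    · exact hMnP φ hm ⟨hφP.1, hB, hF⟩
  have hYx : D.YJ K x := ⟨hVx, hMnK⟩
  refine ⟨hYy, hBigy, ?_, ?_, ?_⟩
  · -- other affine vectors
    intro δ' hδ' hort hBig' μ hμ hlt
    have hμx := hBig' μ hμ hlt
    by_cases hF : μ ∈ D.Fd δ
    · exfalso
      by_cases heq : δ = δ'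
      · subst heq
        rw [hFdB μ hF] at hlt
        exact lt_irrefl _ hlt
      · have h1 := ((hORD D δ δ' hδ hδ').2 hort heq μ hF).2.1
        rw [h1] at hlt
        exact lt_irrefl _ hlt
    · exact (hyN μ hF).2 hμx
  · intro φ hm hφP
    have hmy := hMnP φ hm hφP
    refine ⟨hmy, ?_⟩
    intro hfl
    refine ⟨?_, ?_⟩
    · exact (hYJ.2.2.2 y hYy φ hmy).2 ((hYJ.2.2.2 x hYx φ hm).1 hfl)
    · have hφF := hφP.2.2
      have hφnF := hrt_neg φ hφP.1 hφF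
      ext ψ
      by_cases hF : ψ ∈ D.Fd δ
      · have hne : ψ ≠ φ := fun h => hφF (h ▸ hF)
        have hne' : ψ ≠ -φ := fun h => hφnF (h ▸ hF)
        have hb := hback ψ hF
        have hbne : ψ - ((ν ψ : ℝ) * D.cst δ ψ) • δ ≠ φ := fun h => hφF (h ▸ hb)
        have hbne' : ψ - ((ν ψ : ℝ) * D.cst δ ψ) • δ ≠ -φ := fun h => hφnF (h ▸ hb)
        constructor
        · rintro (⟨_, h⟩ | ⟨_, h⟩)
          · exact absurd hF h
          · rcases h with h | ⟨h, _⟩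
            · exact absurd h hbne'
            · exact Or.inr ⟨(hyF ψ hF).2 h, hne⟩
        · rintro (h | ⟨h, _⟩)
          · exact absurd h hne'
          · exact Or.inr ⟨hF, Or.inr ⟨(hyF ψ hF).1 h, hbne⟩⟩
      · constructor
        · rintro (⟨h, _⟩ | ⟨h, _⟩)
          · rcases h with h | ⟨h, h'⟩
            · exact Or.inl h
            · exact Or.inr ⟨(hyN ψ hF).2 h, h'⟩
          · exact absurd h hF
        · rintro (h | ⟨h, h'⟩)
          · exact Or.inl ⟨Or.inl h, hF⟩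
          · exact Or.inl ⟨Or.inr ⟨(hyN ψ hF).1 h, h'⟩, hF⟩
  · intro φ hm hφ
    have hmy := hMnF φ hm hφ
    refine ⟨hmy, ?_⟩
    intro hfl
    obtain ⟨hs1, hs2, hs3⟩ := hshift φ hφ (ν φ)
    refine ⟨?_, ?_⟩
    · refine (hYJ.2.2.2 y hYy _ hmy).2 ?_
      intro χ hχP hχK
      have h1 := (hYJ.2.2.2 x hYx φ hm).1 hfl χ hχP hχK
      have h2 := hCmp χ hχP.1 hχK
      rw [B_add_smul_left, B_symm D δ χ, h2, mul_zero, add_zero]
      exact h1
    · set φ2 := φ + ((ν φ : ℝ) * D.cst δ φ) • δ with hφ2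
      have hφn := hFneg φ hφ
      have hφ2n := hFneg φ2 hs1
      -- the shift is injective
      have hin1 : ∀ ψ ∈ D.Fd δ, ψ - ((ν ψ : ℝ) * D.cst δ ψ) • δ = φ ↔ ψ = φ2 := by
        intro ψ hψ
        constructor
        · intro h
          have h1 : ψ = φ + ((ν ψ : ℝ) * D.cst δ ψ) • δ := by rw [← h]; abel
          have h2 : ν ψ = ν φ := by
            rw [h1]
            exact hν.dir φ hφ _ (by rw [← h1]; exact hψ)
          have h3 : D.cst δ ψ = D.cst δ φ := by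
            have h4 := (hcstd φ hφ ((ν ψ : ℝ) * D.cst δ ψ) (by rw [← h1]; exact hψ.1)).1
            rw [← h1] at h4
            exact h4
          rw [h2, h3] at h1
          rw [h1]
        · intro h
          rw [h, hs2, hs3, hφ2]
          abel
      have hin2 : ∀ ψ ∈ D.Fd δ, ψ - ((ν ψ : ℝ) * D.cst δ ψ) • δ = -φ ↔ ψ = -φ2 := by
        intro ψ hψ
        have hψn := hFneg ψ hψ
        have h1 := hin1 (-ψ) hψn
        rw [hν.odd ψ hψ, hcneg ψ hψ] at h1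
        have h2 : -ψ - (((-ν ψ : ℤ) : ℝ) * D.cst δ ψ) • δ = -(ψ - ((ν ψ : ℝ) * D.cst δ ψ) • δ) := by
          push_cast
          module
        rw [h2] at h1
        rw [← neg_eq_iff_eq_neg, h1, neg_eq_iff_eq_neg]
      ext ψ
      by_cases hF : ψ ∈ D.Fd δ
      · constructor
        · rintro (⟨_, h⟩ | ⟨_, h⟩)
          · exact absurd hF h
          · rcases h with h | ⟨h, h'⟩
            · exact Or.inl ((hin2 ψ hF).1 h)
            · exact Or.inr ⟨(hyF ψ hF).2 h, fun h2 => h' ((hin1 ψ hF).2 h2)⟩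
        · rintro (h | ⟨h, h'⟩)
          · exact Or.inr ⟨hF, Or.inl ((hin2 ψ hF).2 h)⟩
          · exact Or.inr ⟨hF, Or.inr ⟨(hyF ψ hF).1 h, fun h2 => h' ((hin1 ψ hF).1 h2)⟩⟩
      · have hne : ψ ≠ φ := fun h => hF (h ▸ hφ)
        have hne' : ψ ≠ -φ := fun h => hF (h ▸ hφn)
        have hne2 : ψ ≠ φ2 := fun h => hF (h ▸ hs1)
        have hne2' : ψ ≠ -φ2 := fun h => hF (h ▸ hφ2n)
        constructor
        · rintro (⟨h, _⟩ | ⟨h, _⟩)
          · rcases h with h | ⟨h, _⟩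
            · exact absurd h hne'
            · exact Or.inr ⟨(hyN ψ hF).2 h, hne2⟩
          · exact absurd h hF
        · rintro (h | ⟨h, _⟩)
          · exact absurd h hne2'
          · exact Or.inl ⟨Or.inr ⟨(hyN ψ hF).1 h, hne⟩, hF⟩

end Pool.CS
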