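import Pool.Agent.Work.MP_64ea0f_cs.InterfaceC

set_option autoImplicit false

/-! Block C_THR: thresholds. -/

namespace Pool.CS.helper24

open Pool.CS

variable {Λ : Type} {G : SimpleGraph Λ} (H : Per G)

/-- periodicity for integer multiples -/
theorem s_add_mul (i n : ℤ) : H.s (i + H.k * n) = H.s i := by
  induction n using Int.induction_on with
  | zero => simp
  | succ m ih =>
    rw [← ih, ← H.per (i + H.k * m)]
    congr 1; ring
  | pred m ih =>
    rw [← ih, ← H.per (i + H.k * (-(m:ℤ) - 1))]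
    congr 1; ring

theorem c_thr : Stmt_C_THR := by
  intro Λ G H D hD j hj
  have hk : (1:ℤ) ≤ H.k := by exact_mod_cast H.pos
  have hs : ∀ n : ℤ, H.s (j + H.k * n) = H.s j := fun n => s_add_mul H j n
  have hact : ∀ n : ℤ, H.act (j + H.k * n) := fun n => Or.inl (by rw [hs n]; exact hj)
  have hmono : ∀ n m : ℤ, n < m → j + H.k * m ∈ D → j + H.k * n ∈ D := by
    intro n m hnm hm
    refine hD.1 _ _ (hact n) (hact m) ?_ (Or.inl (by rw [hs n, hs m])) hm
    nlinarith
  obtain ⟨b, hb⟩ := hD.2.2.bddBelow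
  obtain ⟨B, hB⟩ := hD.2.2.bddAbove
  have hne : ∃ n : ℤ, j + H.k * n ∈ D := by
    refine ⟨-(|j| + |b| + 1), ?_⟩
    have h1 := le_abs_self j
    have h2 := neg_abs_le b
    have h3 := abs_nonneg j
    have h4 := abs_nonneg b
    have h5 : (H.k : ℤ) * (-(|j| + |b| + 1)) ≤ -(|j| + |b| + 1) := by nlinarith
    have h6 : j + H.k * (-(|j| + |b| + 1)) ∈ Per.D0 := by
      show j + H.k * (-(|j| + |b| + 1)) ≤ 0
      linarith
    by_contra hnot
    have h7 : j + H.k * (-(|j| + |b| + 1)) ∈ symmDiff D Per.D0 := Or.inr ⟨h6, hnot⟩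
    have h8 := hb h7
    linarith
  have hbd : ∃ c : ℤ, ∀ n : ℤ, j + H.k * n ∈ D → n ≤ c := by
    refine ⟨|j| + |B|, fun n hn => ?_⟩
    by_contra hlt
    push Not at hlt
    have h1 := neg_abs_le j
    have h2 := le_abs_self B
    have h3 := abs_nonneg j
    have h4 := abs_nonneg B
    have h5 : n ≤ (H.k : ℤ) * n := by nlinarith
    have h6 : j + H.k * n ∉ Per.D0 := by
      intro h
      have h' : j + H.k * n ≤ 0 := h
      linarith
    have h7 : j + H.k * n ∈ symmDiff D Per.D0 := Or.inl ⟨hn, h6⟩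
    have h8 := hB h7
    linarith
  obtain ⟨a, ha, hmax⟩ := Int.exists_greatest_of_bdd hbd hne
  refine ⟨a, fun n => ⟨fun h => hmax n h, fun h => ?_⟩⟩
  rcases lt_or_eq_of_le h with h' | h'
  · exact hmono n a h' ha
  · rw [h']; exact ha

end Pool.CS.helper24
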