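import Pool.Agent.Work.MP_64ea0f_cs.InterfaceD

set_option autoImplicit false

/-! Block HAT: extension by zero keeps the cocycle identity on weak flags. -/

namespace Pool.CS

namespace HAT

variable {Λ F : Type} [AddCommGroup F]

/-- a function which vanishes on the sublists that are not strict has zero coboundary at a weak flag
which is not strict -/
theorem claim (l : List (Set Λ)) : l.Pairwise (· ⊆ ·) → ¬ l.Pairwise (· ⊂ ·) →
    ∀ f : List (Set Λ) → F, (∀ l', l'.Sublist l → ¬ l'.Pairwise (· ⊂ ·) → f l' = 0) →
    del f l = 0 := by
  induction l with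
  | nil => intro _ h; exact absurd List.Pairwise.nil h
  | cons x l ih =>
    intro hw hs f hf
    cases l with
    | nil => exact absurd (List.pairwise_singleton _ _) hs
    | cons y l =>
      have hxy : x ⊆ y := (List.pairwise_cons.1 hw).1 y List.mem_cons_self
      have hwt : (y :: l).Pairwise (· ⊆ ·) := (List.pairwise_cons.1 hw).2
      by_cases hne : x = y
      · subst hne
        rw [del_two, sub_self, zero_add]
        refine del_eq_zero fun m hm _ => hf _ ((hm.cons_cons x).cons_cons x) ?_
        intro h
        exact (List.pairwise_cons.1 h).1 x List.mem_cons_self |>.ne rfl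
      · have hss : x ⊂ y := lt_of_le_of_ne hxy hne
        have hst : ¬ (y :: l).Pairwise (· ⊂ ·) := by
          intro h
          refine hs (List.pairwise_cons.2 ⟨fun z hz => ?_, h⟩)
          rcases List.mem_cons.1 hz with rfl | hz
          · exact hss
          · exact lt_of_lt_of_le hss ((List.pairwise_cons.1 hwt).1 z hz)
        rw [del_cons, hf (y :: l) (List.sublist_cons_self x _) hst, zero_sub,
          ih hwt hst (fun m => f (x :: m)) (fun m hm hm2 => ?_), neg_zero]
        refine hf _ (hm.cons_cons x) fun h => hm2 (List.pairwise_cons.1 h).2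

end HAT

theorem hat_thm : Stmt_HAT := by
  intro Λ G A F _ n f hf l hl hn
  by_cases hs : l.Pairwise (· ⊂ ·)
  · have hfl : Fl G A l := ⟨hs, hl.2⟩
    rw [del_congr (ψ := f) (fun l' h1 _ => hat_fl f (hfl.sublist h1))]
    exact hf l hfl hn
  · refine HAT.claim l hl.1 hs _ fun l' _ h2 => hat_not f fun h => h2 h.1

end Pool.CS
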