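import Pool.Agent.Work.MP_64ea0f_cs.InterfaceD

set_option autoImplicit false

/-! Block TRR: from true flags to all flags. -/

namespace Pool.CS

namespace TRR

variable {Λ F : Type} {G : SimpleGraph Λ} {Y : Type}

/-- the traces of a clique on the letters which move `y` and `τ_s y` are equal -/
theorem trace (L : LS G Y) (hMv : Mv L) {s : Λ} {y : Y} (hs : L.τ s y ≠ y) {I : Set Λ}
    (hI : G.IsClique I) (hsI : s ∈ I) : I ∩ mvs L (L.τ s y) = I ∩ mvs L y := by
  ext t
  simp only [Set.mem_inter_iff]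
  refine and_congr_right fun ht => ?_
  show L.τ t (L.τ s y) ≠ L.τ s y ↔ L.τ t y ≠ y
  by_cases hts : t = s
  · subst hts
    rw [L.inv]
    exact ⟨fun _ => hs, fun _ => Ne.symm hs⟩
  · exact hMv s t (hI hsI ht (Ne.symm hts)) y hs

end TRR

theorem trr_thm : Stmt_HAT → Stmt_TRR := by
  intro hHAT Λ G F _ Y L n φ hMv hT hC
  refine ⟨?_, ?_, ?_⟩
  · intro y x l hl hn s hs
    by_cases hsy : L.τ s y = y
    · rw [hsy]
    · have hmap : (x :: l).map (fun I => I ∩ mvs L (L.τ s y)) =
          (x :: l).map (fun I => I ∩ mvs L y) := by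
        refine List.map_congr_left fun I hI => TRR.trace L hMv hsy (hl.2 I hI).1 ?_
        rcases List.mem_cons.1 hI with rfl | hI
        · exact hs
        · exact (hl.ss hI).subset hs
      have hsub : ∀ J ∈ (x :: l).map (fun I => I ∩ mvs L y), J ⊆ mvs L y ∧ J ⊆ mvs L (L.τ s y) := by
        intro J hJ
        constructor
        · obtain ⟨I, _, rfl⟩ := List.mem_map.1 hJ
          exact Set.inter_subset_right
        · rw [← hmap] at hJ
          obtain ⟨I, _, rfl⟩ := List.mem_map.1 hJ
          exact Set.inter_subset_right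
      have hiff : Fl G (mvs L (L.τ s y)) ((x :: l).map (fun I => I ∩ mvs L y)) ↔
          Fl G (mvs L y) ((x :: l).map (fun I => I ∩ mvs L y)) := by
        constructor
        · exact fun h => ⟨h.1, fun J hJ => ⟨(h.2 J hJ).1, (hsub J hJ).1⟩⟩
        · exact fun h => ⟨h.1, fun J hJ => ⟨(h.2 J hJ).1, (hsub J hJ).2⟩⟩
      unfold rst
      rw [hmap]
      by_cases hfl : Fl G (mvs L y) ((x :: l).map (fun I => I ∩ mvs L y))
      · rw [hat_fl _ (hiff.2 hfl), hat_fl _ hfl]
        rw [List.map_cons] at hfl ⊢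
        exact hT y _ _ hfl (by rw [List.length_map]; exact hn) s ⟨hs, hsy⟩
      · rw [hat_not _ (fun h => hfl (hiff.1 h)), hat_not _ hfl]
  · intro y l hl hn
    have h1 : rst L φ y = fun l' => hat G (mvs L y) (φ y) (l'.map fun I => I ∩ mvs L y) := rfl
    rw [h1, del_map (fun I => I ∩ mvs L y) (hat G (mvs L y) (φ y)) l]
    refine hHAT Λ G (mvs L y) F (n + 3) (φ y) (hC y) _ ⟨?_, ?_⟩ (by rw [List.length_map]; exact hn)
    · rw [List.pairwise_map]
      exact hl.1.imp fun h => Set.inter_subset_inter_left _ h.subset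
    · intro J hJ
      obtain ⟨I, hI, rfl⟩ := List.mem_map.1 hJ
      exact ⟨(hl.2 I hI).1.subset Set.inter_subset_left, Set.inter_subset_right⟩
  · intro y l hl
    have h1 : l.map (fun I => I ∩ mvs L y) = l := by
      conv_rhs => rw [← List.map_id l]
      refine List.map_congr_left fun I hI => ?_
      exact Set.inter_eq_left.2 (hl.2 I hI).2
    unfold rst
    rw [h1, hat_fl _ hl]

end Pool.CS
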