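import Pool.Agent.Work.MP_64ea0f_cs.InterfaceD2

set_option autoImplicit false

/-! Block TSA: one step of the tower, for all cocycles at once. -/

namespace Pool.CS

namespace TSA

/-- flags are short -/
theorem fl_length {Λ : Type} [Finite Λ] {G : SimpleGraph Λ} {A : Set Λ} {l : List (Set Λ)}
    (h : Fl G A l) : l.length ≤ Nat.card Λ + 1 := by
  classical
  have h1 : (l.map Set.ncard).Pairwise (· < ·) := by
    rw [List.pairwise_map]
    exact h.1.imp fun h => Set.ncard_lt_ncard h (Set.toFinite _)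
  have h2 : (l.map Set.ncard).Nodup := h1.imp fun h => ne_of_lt h
  have h3 : (l.map Set.ncard).toFinset ⊆ Finset.range (Nat.card Λ + 1) := by
    intro x hx
    rw [List.mem_toFinset, List.mem_map] at hx
    obtain ⟨I, _, rfl⟩ := hx
    rw [Finset.mem_range]
    have := Set.ncard_le_ncard (Set.subset_univ I) (Set.toFinite _)
    rw [Set.ncard_univ] at this
    omega
  have h4 := Finset.card_le_card h3
  rw [List.toFinset_card_of_nodup h2, Finset.card_range, List.length_map] at h4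
  exact h4

section
variable {Λ : Type} {G : SimpleGraph Λ} {Y : Type} {L : LS G Y} {Γ : Type} [Group Γ] [MulAction Γ Y]
  {al : Γ →* Equiv.Perm Λ} {M : Subgroup Γ} {κ : Y → RC G} {c : M →* RC G}

theorem tau_smul (hG : Geo L al M κ c) {m : Γ} (hm : m ∈ M) (s : Λ) (y : Y) :
    L.τ s (m • y) = m • L.τ s y := by
  rw [hG.eqv m s y, hG.triv m hm]
  rfl

theorem mvs_smul (hG : Geo L al M κ c) {m : Γ} (hm : m ∈ M) (y : Y) :
    mvs L (m • y) = mvs L y := by
  ext s
  show L.τ s (m • y) ≠ m • y ↔ L.τ s y ≠ y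
  rw [tau_smul hG hm]
  exact (MulAction.injective m).ne_iff

end

/-- the version for a fixed degree -/
theorem fixedDeg (hTRF : Stmt_TRF) {Λ : Type} [Finite Λ] {G : SimpleGraph Λ} (F : Type)
    [AddCommGroup F] [Finite F] {Y : Type} {L : LS G Y} {Γ : Type} [Group Γ] [MulAction Γ Y]
    {al : Γ →* Equiv.Perm Λ} {M : Subgroup Γ} {κ : Y → RC G} {c : M →* RC G}
    (hG : Geo L al M κ c) {M₁ : Subgroup Γ} (hle : M₁ ≤ M)
    (hcof : Finite (MulAction.orbitRel.Quotient M₁ Y)) (n : ℕ) :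
    ∃ N : Subgroup (RC G), N.Normal ∧ N.FiniteIndex ∧
      ∀ φ : Y → List (Set Λ) → F, TCoch L (n + 1) φ → Ivt L M₁ (n + 1) φ →
        (∀ y l, Fl G (mvs L y) l → l.length = n + 3 → del (φ y) l = 0) →
        ∃ ψ : Y → List (Set Λ) → F, TCoch L n ψ ∧
          (∀ y l, Fl G (mvs L y) l → l.length = n + 2 → φ y l = del (ψ y) l) ∧
          ∀ m : M₁, c ⟨m, hle m.2⟩ ∈ N → ∀ y l, Fl G (mvs L y) l → l.length = n + 1 →
            ψ ((m : Γ) • y) l = ψ y l := by
  classical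
  let Dat : Type := MulAction.orbitRel.Quotient M₁ Y → List.Vector (Set Λ) (n + 2) → F
  have hDat : Finite Dat := by
    have : Finite (List.Vector (Set Λ) (n + 2)) := by
      have := Fintype.ofFinite (Set Λ)
      infer_instance
    infer_instance
  let dat : (Y → List (Set Λ) → F) → Dat := fun φ q v => φ q.out v.toList
  -- the data determine an invariant function
  have hdet : ∀ φ φ' : Y → List (Set Λ) → F, Ivt L M₁ (n + 1) φ → Ivt L M₁ (n + 1) φ' →
      dat φ = dat φ' → ∀ y l, Fl G (mvs L y) l → l.length = n + 2 → φ y l = φ' y l := by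
    intro φ φ' hφ hφ' hd y l hl hn
    have h0 : MulAction.orbitRel M₁ Y y
        ((Quotient.mk'' y : MulAction.orbitRel.Quotient M₁ Y).out) :=
      Quotient.exact' (Quotient.out_eq' (Quotient.mk'' y : MulAction.orbitRel.Quotient M₁ Y)).symm
    rw [MulAction.orbitRel_apply] at h0
    obtain ⟨m, hm⟩ := h0
    have hm' : (m : Γ) • (Quotient.mk'' y : MulAction.orbitRel.Quotient M₁ Y).out = y := hm
    set r := (Quotient.mk'' y : MulAction.orbitRel.Quotient M₁ Y).out with hr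
    have hfr : Fl G (mvs L r) l := by
      have := mvs_smul hG (hle m.2) r
      rw [hm'] at this
      rwa [← this]
    have e1 : φ y l = φ r l := by
      have := hφ m m.2 r l hfr hn
      rwa [hm'] at this
    have e2 : φ' y l = φ' r l := by
      have := hφ' m m.2 r l hfr hn
      rwa [hm'] at this
    have e3 := congrFun (congrFun hd (Quotient.mk'' y)) ⟨l, hn⟩
    rw [e1, e2]
    exact e3
  have key : ∀ d : Dat, ∃ N : Subgroup (RC G), N.Normal ∧ N.FiniteIndex ∧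
      ∀ φ : Y → List (Set Λ) → F, TCoch L (n + 1) φ → Ivt L M₁ (n + 1) φ →
        (∀ y l, Fl G (mvs L y) l → l.length = n + 3 → del (φ y) l = 0) → dat φ = d →
        ∃ ψ : Y → List (Set Λ) → F, TCoch L n ψ ∧
          (∀ y l, Fl G (mvs L y) l → l.length = n + 2 → φ y l = del (ψ y) l) ∧
          ∀ m : M₁, c ⟨m, hle m.2⟩ ∈ N → ∀ y l, Fl G (mvs L y) l → l.length = n + 1 →
            ψ ((m : Γ) • y) l = ψ y l := by
    intro d
    by_cases hd : ∃ φ : Y → List (Set Λ) → F, TCoch L (n + 1) φ ∧ Ivt L M₁ (n + 1) φ ∧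
        (∀ y l, Fl G (mvs L y) l → l.length = n + 3 → del (φ y) l = 0) ∧ dat φ = d
    · obtain ⟨φ, h1, h2, h3, h4⟩ := hd
      obtain ⟨N, hN1, hN2, ψ, hψ1, hψ2, hψ3⟩ := hTRF Λ G F Y L M₁ κ
        (fun m => c ⟨m, hle m.2⟩) n φ hG.mv (fun m s y => tau_smul hG (hle m.2) s y) hcof
        hG.step (fun m y => hG.hol ⟨m, hle m.2⟩ y) h1 h3 (fun m y l hl hn => h2 m m.2 y l hl hn)
      refine ⟨N, hN1, hN2, fun φ' h1' h2' h3' h4' => ⟨ψ, hψ1, fun y l hl hn => ?_, hψ3⟩⟩
      rw [hdet φ' φ h2' h2 (h4'.trans h4.symm) y l hl hn]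
      exact hψ2 y l hl hn
    · refine ⟨⊤, inferInstance, inferInstance, fun φ h1 h2 h3 h4 => ?_⟩
      exact absurd ⟨φ, h1, h2, h3, h4⟩ hd
  choose N hN1 hN2 hN3 using key
  refine ⟨⨅ d, N d, Subgroup.normal_iInf_normal hN1, Subgroup.finiteIndex_iInf hN2, ?_⟩
  intro φ h1 h2 h3
  obtain ⟨ψ, hψ1, hψ2, hψ3⟩ := hN3 (dat φ) φ h1 h2 h3 rfl
  exact ⟨ψ, hψ1, hψ2, fun m hm => hψ3 m (Subgroup.mem_iInf.1 hm (dat φ))⟩

end TSA

theorem tsa_thm : Stmt_TRF → Stmt_TSA := by
  intro hTRF Λ _ G F _ _ Y L Γ _ _ al M κ c hG M₁ hle hcof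
  classical
  choose N hN1 hN2 hN3 using fun n : ℕ => TSA.fixedDeg hTRF F hG hle hcof n
  refine ⟨⨅ i : Fin (Nat.card Λ + 1), N i, Subgroup.normal_iInf_normal fun i => hN1 i,
    Subgroup.finiteIndex_iInf fun i => hN2 i, ?_⟩
  intro n φ h1 h2 h3
  by_cases hn : n < Nat.card Λ + 1
  · obtain ⟨ψ, hψ1, hψ2, hψ3⟩ := hN3 n φ h1 h2 h3
    refine ⟨ψ, hψ1, ?_, hψ2⟩
    intro m hm hc y l hl hln
    exact hψ3 ⟨m, hm⟩ (Subgroup.mem_iInf.1 hc ⟨n, hn⟩) y l hl hln
  · refine ⟨fun _ _ => 0, fun _ _ _ _ _ _ _ => rfl, fun _ _ _ _ _ _ _ => rfl, ?_⟩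
    intro y l hl hln
    have := TSA.fl_length hl
    omega

end Pool.CS
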